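import Pool.Agent.H374Z.Ing.Step

/-!
# The limit of the back-and-forth construction
-/

set_option autoImplicit false
set_option linter.unusedSectionVars false

namespace Pool.Agent.H374Z.Ing

open Finset

variable {β E : Type} [DecidableEq β] [DecidableEq E] [Fintype β] (P : Poly β E)

namespace Poly

/-- what is required from the new vectors at stage `n` -/
def StepProp (req : ℕ → Finset E × (ℕ × E × E)) (n : ℕ) (O : E → Submodule ℚ (TT E))
    (w : E → TT E) : Prop :=
  (∀ e, w e ∈ P.VS {P.s e}) ∧ (∀ e, w e ∈ Lev E (n + 1)) ∧ P.NewInd O w ∧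
    (P.Ind (req n).1 → (req n).1.card = P.ρ univ → (req n).2.1 < n →
      ∃ (o : E → TT E) (c : E → ℚ), (∀ e, o e ∈ O e) ∧
        Finsupp.single (req n).2 1 = ∑ e ∈ (req n).1, (o e + c e • w e))

theorem exists_stepProp (req : ℕ → Finset E × (ℕ × E × E)) (n : ℕ) (O : E → Submodule ℚ (TT E))
    (hO : ∀ e, O e ≤ Lev E n) (hOV : ∀ e, O e ≤ P.VS {P.s e}) (hI : P.Inv O) :
    ∃ w, P.StepProp req n O w := by
  by_cases h : P.Ind (req n).1 ∧ (req n).1.card = P.ρ univ ∧ (req n).2.1 < n
  · obtain ⟨w, h1, h2, h3, h4⟩ := P.step n O hO hOV hI (req n).1 h.1 h.2.1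
      (Finsupp.single (req n).2 1) (Finsupp.single_mem_supported _ _ h.2.2)
    exact ⟨w, h1, h2, h3, fun _ _ _ => h4⟩
  · refine ⟨fun e => (0 : TT E) + zz n ∅ e, fun e => ?_, fun e => ?_, ?_, fun h1 h2 h3 => ?_⟩
    · simp only [zero_add]; exact P.zz_mem_VS n ∅ e
    · simp only [zero_add]; exact zz_mem_Lev n ∅ e
    · refine P.fresh n O hO ∅ (fun _ => 0) (fun _ => Submodule.zero_mem _) ?_
      intro S I _ _ hne
      simp at hne
    · exact absurd ⟨h1, h2, h3⟩ h

/-- the chosen new vectors -/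
noncomputable def pick (req : ℕ → Finset E × (ℕ × E × E)) (n : ℕ)
    (O : E → Submodule ℚ (TT E)) : E → TT E :=
  Classical.epsilon (P.StepProp req n O)

/-- the subspaces at stage `n` -/
noncomputable def stage (req : ℕ → Finset E × (ℕ × E × E)) : ℕ → E → Submodule ℚ (TT E)
  | 0 => fun _ => ⊥
  | n + 1 => fun e => stage req n e ⊔ Submodule.span ℚ {P.pick req n (stage req n) e}

/-- the sequence of vectors -/
noncomputable def vec (req : ℕ → Finset E × (ℕ × E × E)) (n : ℕ) : E → TT E :=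
  P.pick req n (P.stage req n)

theorem mem_stage_succ (req : ℕ → Finset E × (ℕ × E × E)) (n : ℕ) (e : E) (x : TT E) :
    x ∈ P.stage req (n + 1) e ↔ ∃ o ∈ P.stage req n e, ∃ c : ℚ, x = o + c • P.vec req n e := by
  show x ∈ P.stage req n e ⊔ Submodule.span ℚ {P.vec req n e} ↔ _
  rw [Submodule.mem_sup]
  constructor
  · rintro ⟨y, hy, z, hz, rfl⟩
    obtain ⟨c, rfl⟩ := Submodule.mem_span_singleton.1 hz
    exact ⟨y, hy, c, rfl⟩
  · rintro ⟨o, ho, c, rfl⟩
    exact ⟨o, ho, _, Submodule.smul_mem _ _ (Submodule.mem_span_singleton_self _), rfl⟩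

theorem stage_inv (req : ℕ → Finset E × (ℕ × E × E)) (n : ℕ) :
    (∀ e, P.stage req n e ≤ Lev E n) ∧ (∀ e, P.stage req n e ≤ P.VS {P.s e}) ∧
      P.Inv (P.stage req n) := by
  induction n with
  | zero =>
    refine ⟨fun e => bot_le, fun e => bot_le, fun S I _ o ho _ e _ => ?_⟩
    exact (Submodule.mem_bot ℚ).1 (ho e)
  | succ n ih =>
    obtain ⟨h1, h2, h3⟩ := ih
    have hs : P.StepProp req n (P.stage req n) (P.vec req n) :=
      Classical.epsilon_spec (P.exists_stepProp req n _ h1 h2 h3)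
    refine ⟨fun e x hx => ?_, fun e x hx => ?_, fun S I hC x hx hsum => ?_⟩
    · obtain ⟨o, ho, c, rfl⟩ := (P.mem_stage_succ req n e x).1 hx
      exact Submodule.add_mem _ (Lev_mono E (Nat.le_succ n) (h1 e ho))
        (Submodule.smul_mem _ _ (hs.2.1 e))
    · obtain ⟨o, ho, c, rfl⟩ := (P.mem_stage_succ req n e x).1 hx
      exact Submodule.add_mem _ (h2 e ho) (Submodule.smul_mem _ _ (hs.1 e))
    · choose o ho c hc using fun e => (P.mem_stage_succ req n e (x e)).1 (hx e)
      have h4 : ∑ e ∈ I, (o e + c e • P.vec req n e) ∈ P.VS S := by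
        rw [← sum_congr rfl (fun e _ => hc e)]; exact hsum
      have h5 := hs.2.2.1 S I hC o c ho h4
      have h6 : ∑ e ∈ I, o e ∈ P.VS S := by
        have : ∑ e ∈ I, (o e + c e • P.vec req n e) = ∑ e ∈ I, o e :=
          sum_congr rfl fun e he => by rw [h5 e he, zero_smul, add_zero]
        rw [← this]; exact h4
      intro e he
      rw [hc e, h5 e he, h3 S I hC o ho h6 e he, zero_smul, add_zero]

theorem stage_step (req : ℕ → Finset E × (ℕ × E × E)) (n : ℕ) :
    P.StepProp req n (P.stage req n) (P.vec req n) :=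
  Classical.epsilon_spec (P.exists_stepProp req n _ (P.stage_inv req n).1
    (P.stage_inv req n).2.1 (P.stage_inv req n).2.2)

/-- the embedding attached to the element `e` -/
noncomputable def emb (req : ℕ → Finset E × (ℕ × E × E)) (e : E) : (ℕ →₀ ℚ) →ₗ[ℚ] TT E :=
  Finsupp.linearCombination ℚ (fun k => P.vec req k e)

theorem emb_single (req : ℕ → Finset E × (ℕ × E × E)) (e : E) (k : ℕ) (c : ℚ) :
    P.emb req e (Finsupp.single k c) = c • P.vec req k e := by
  simp [emb]

theorem stage_le_range (req : ℕ → Finset E × (ℕ × E × E)) (n : ℕ) (e : E) (x : TT E)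
    (hx : x ∈ P.stage req n e) : ∃ y, P.emb req e y = x := by
  induction n generalizing x with
  | zero => exact ⟨0, by rw [map_zero]; exact ((Submodule.mem_bot ℚ).1 hx).symm⟩
  | succ n ih =>
    obtain ⟨o, ho, c, rfl⟩ := (P.mem_stage_succ req n e x).1 hx
    obtain ⟨y, hy⟩ := ih o ho
    exact ⟨y + Finsupp.single n c, by rw [map_add, hy, emb_single]⟩

theorem emb_split (req : ℕ → Finset E × (ℕ × E × E)) (e : E) (n : ℕ) (x : ℕ →₀ ℚ) :
    P.emb req e x = P.emb req e (x.erase n) + x n • P.vec req n e := by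
  rw [← emb_single, ← map_add, Finsupp.erase_add_single]

theorem emb_mem_stage (req : ℕ → Finset E × (ℕ × E × E)) (e : E) (n : ℕ) (x : ℕ →₀ ℚ)
    (hx : ∀ k, n ≤ k → x k = 0) : P.emb req e x ∈ P.stage req n e := by
  induction n generalizing x with
  | zero =>
    have : x = 0 := Finsupp.ext fun k => hx k (Nat.zero_le k)
    rw [this, map_zero]; exact Submodule.zero_mem _
  | succ n ih =>
    refine (P.mem_stage_succ req n e _).2 ⟨_, ih (x.erase n) fun k hk => ?_, x n,
      P.emb_split req e n x⟩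
    by_cases h : k = n
    · rw [h, Finsupp.erase_same]
    · rw [Finsupp.erase_ne h]; exact hx k (by omega)

theorem emb_ind (req : ℕ → Finset E × (ℕ × E × E)) {S : Finset β} {I : Finset E}
    (hC : P.Cond S I) (n : ℕ) (x : E → (ℕ →₀ ℚ)) (hx : ∀ e k, n ≤ k → x e k = 0)
    (hsum : ∑ e ∈ I, P.emb req e (x e) ∈ P.VS S) : ∀ e ∈ I, x e = 0 := by
  induction n generalizing x with
  | zero => exact fun e _ => Finsupp.ext fun k => hx e k (Nat.zero_le k)
  | succ n ih =>
    have hx' : ∀ e k, n ≤ k → (x e).erase n k = 0 := by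
      intro e k hk
      by_cases h : k = n
      · rw [h, Finsupp.erase_same]
      · rw [Finsupp.erase_ne h]; exact hx e k (by omega)
    have h4 : ∑ e ∈ I, (P.emb req e ((x e).erase n) + x e n • P.vec req n e) ∈ P.VS S := by
      rw [← sum_congr rfl (fun e _ => P.emb_split req e n (x e))]; exact hsum
    have h5 := (P.stage_step req n).2.2.1 S I hC _ (fun e => x e n)
      (fun e => P.emb_mem_stage req e n _ (hx' e)) h4
    have h6 : ∑ e ∈ I, P.emb req e ((x e).erase n) ∈ P.VS S := by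
      have : ∑ e ∈ I, (P.emb req e ((x e).erase n) + x e n • P.vec req n e)
          = ∑ e ∈ I, P.emb req e ((x e).erase n) :=
        sum_congr rfl fun e he => by rw [h5 e he, zero_smul, add_zero]
      rw [← this]; exact h4
    have h7 := ih (fun e => (x e).erase n) hx' h6
    intro e he
    have h8 := Finsupp.erase_add_single n (x e)
    rw [h7 e he, h5 e he] at h8
    simpa using h8.symm

/-- **The arrangement.** -/
theorem exists_arr [Fintype E] [Nonempty E] : ∃ φ : E → ((ℕ →₀ ℚ) →ₗ[ℚ] TT E),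
    (∀ e x, φ e x ∈ P.VS {P.s e}) ∧
    (∀ S I, P.Cond S I → ∀ x : E → (ℕ →₀ ℚ), ∑ e ∈ I, φ e (x e) ∈ P.VS S → ∀ e ∈ I, x e = 0) ∧
    (∀ B, P.Ind B → B.card = P.ρ univ → ∀ v, ∃ x : E → (ℕ →₀ ℚ), v = ∑ e ∈ B, φ e (x e)) := by
  obtain ⟨g, hg⟩ := exists_surjective_nat (Finset E × (ℕ × E × E))
  let req : ℕ → Finset E × (ℕ × E × E) := fun n => g (Nat.unpair n).1
  have hbound : ∀ y : ℕ →₀ ℚ, ∃ n, ∀ k, n ≤ k → y k = 0 := by
    intro y
    refine ⟨y.support.sup id + 1, fun k hk => ?_⟩
    by_contra h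
    have : k ≤ y.support.sup id := le_sup (f := id) (Finsupp.mem_support_iff.2 h)
    omega
  refine ⟨P.emb req, fun e x => ?_, fun S I hC x hsum => ?_, fun B hB hBc v => ?_⟩
  · obtain ⟨n, hn⟩ := hbound x
    exact (P.stage_inv req n).2.1 e (P.emb_mem_stage req e n x hn)
  · choose N hN using fun e => hbound (x e)
    exact P.emb_ind req hC (univ.sup N) x
      (fun e k hk => hN e k ((le_sup (f := N) (mem_univ e)).trans hk)) hsum
  · induction v using Finsupp.induction_linear with
    | zero => exact ⟨fun _ => 0, by simp⟩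
    | add v₁ v₂ h₁ h₂ =>
      obtain ⟨x₁, rfl⟩ := h₁
      obtain ⟨x₂, rfl⟩ := h₂
      exact ⟨fun e => x₁ e + x₂ e, by simp [sum_add_distrib]⟩
    | single p c =>
      obtain ⟨k, hk⟩ := hg (B, p)
      have hreq : req (Nat.pair k (p.1 + 1)) = (B, p) := by
        simp only [req, Nat.unpair_pair]; exact hk
      have hlt : p.1 < Nat.pair k (p.1 + 1) := Nat.right_le_pair k (p.1 + 1)
      have h := (P.stage_step req (Nat.pair k (p.1 + 1))).2.2.2
      rw [hreq] at h
      obtain ⟨o, d, ho, hs⟩ := h hB hBc hlt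
      choose y hy using fun e => P.stage_le_range req _ e (o e) (ho e)
      refine ⟨fun e => c • (y e + Finsupp.single (Nat.pair k (p.1 + 1)) (d e)), ?_⟩
      have : Finsupp.single p c = c • (Finsupp.single p (1 : ℚ)) := by simp
      rw [this, hs, smul_sum]
      refine sum_congr rfl fun e _ => ?_
      rw [map_smul, map_add, hy, emb_single]

end Poly

end Pool.Agent.H374Z.Ing
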