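import Mathlib

/-!
# From an arrangement of copies of a vector space to a matrix over its endomorphism ring
-/

set_option autoImplicit false
set_option linter.unusedSectionVars false

namespace Pool.Agent.H374Z.Ing

open Finset

variable {E V T : Type} [DecidableEq E] [AddCommGroup V] [Module ℚ V] [AddCommGroup T] [Module ℚ T]

/-- the total map of a family of columns -/
def tot {r : ℕ} (φ : E → V →ₗ[ℚ] T) (b : Fin r → E) : (Fin r → V) →ₗ[ℚ] T :=
  ∑ i, (φ (b i)).comp (LinearMap.proj i)

theorem tot_apply {r : ℕ} (φ : E → V →ₗ[ℚ] T) (b : Fin r → E) (u : Fin r → V) :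
    tot φ b u = ∑ i, φ (b i) (u i) := by
  simp [tot]

theorem exists_matrix [Nontrivial V] (Ind : Finset E → Prop) (r : ℕ) (φ : E → V →ₗ[ℚ] T)
    (h0 : Ind ∅) (hsub : ∀ I J, Ind J → I ⊆ J → Ind I)
    (H1 : ∀ I, Ind I → ∀ x : E → V, ∑ e ∈ I, φ e (x e) = 0 → ∀ e ∈ I, x e = 0)
    (H2 : ∀ I, Ind I → ∀ e, e ∉ I → ¬ Ind (insert e I) → ∀ x, ∃ y : E → V,
      φ e x = ∑ f ∈ I, φ f (y f))
    (H3 : ∀ B, Ind B → B.card = r → ∀ v, ∃ x : E → V, v = ∑ e ∈ B, φ e (x e))
    (b₀ : Fin r ↪ E) (hb₀ : Ind (univ.map b₀)) :
    ∃ A : Matrix (Fin r) E (Module.End ℚ V),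
      (∀ b : Fin r ↪ E, IsUnit (A.submatrix id b) ↔ Ind (univ.map b)) ∧
      (∀ (b : Fin r ↪ E) (N : Matrix (Fin r) (Fin r) (Module.End ℚ V)),
        N * A.submatrix id b = 1 → A.submatrix id b * N = 1 →
        ∀ i j, (N * A) i j = 0 ∨ IsUnit ((N * A) i j)) := by
  classical
  have hinj : ∀ b : Fin r ↪ E, Ind (univ.map b) → Function.Injective (tot φ b) := by
    intro b hb
    rw [injective_iff_map_eq_zero]
    intro u hu
    rw [tot_apply] at hu
    have h1 := H1 _ hb (Function.extend b u 0) (by
      rw [sum_map]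
      simpa only [b.injective.extend_apply] using hu)
    funext i
    have h2 := h1 (b i) (mem_map_of_mem b (mem_univ i))
    rwa [b.injective.extend_apply] at h2
  have hsurj : ∀ b : Fin r ↪ E, Ind (univ.map b) → Function.Surjective (tot φ b) := by
    intro b hb v
    obtain ⟨x, hx⟩ := H3 _ hb (by simp) v
    refine ⟨fun i => x (b i), ?_⟩
    rw [tot_apply, hx, sum_map]
  have hdep : ∀ b : Fin r ↪ E, Function.Injective (tot φ b) → Ind (univ.map b) := by
    intro b hb
    by_contra hn
    obtain ⟨I, hI, hmax⟩ := ((univ.map b).powerset.filter Ind).exists_max_image card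
      ⟨∅, mem_filter.2 ⟨empty_mem_powerset _, h0⟩⟩
    obtain ⟨hIs, hIi⟩ := mem_filter.1 hI
    rw [mem_powerset] at hIs
    have hne : I ≠ univ.map b := fun h => hn (h ▸ hIi)
    obtain ⟨e, heB, heI⟩ := exists_of_ssubset (Finset.ssubset_iff_subset_ne.2 ⟨hIs, hne⟩)
    have hnI : ¬ Ind (insert e I) := by
      intro h
      have := hmax (insert e I) (mem_filter.2 ⟨mem_powerset.2 (insert_subset heB hIs), h⟩)
      rw [card_insert_of_notMem heI] at this
      omega
    obtain ⟨x, hx⟩ := exists_ne (0 : V)
    obtain ⟨y, hy⟩ := H2 I hIi e heI hnI x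
    let z : E → V := fun f => (if f = e then x else 0) - (if f ∈ I then y f else 0)
    have hz : tot φ b (fun i => z (b i)) = 0 := by
      rw [tot_apply, ← sum_map univ b (fun f => φ f (z f))]
      have : ∀ f ∈ univ.map b, φ f (z f)
          = (if f = e then φ f x else 0) - (if f ∈ I then φ f (y f) else 0) := by
        intro f _
        simp only [z, map_sub]
        split_ifs <;> simp
      rw [sum_congr rfl this, sum_sub_distrib, sum_ite_eq' _ e, if_pos heB, ← sum_filter,
        filter_mem_eq_inter, inter_eq_right.2 hIs, hy, sub_self]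
    have h1 := (injective_iff_map_eq_zero _).1 hb _ hz
    obtain ⟨i, -, rfl⟩ := mem_map.1 heB
    have h2 := congrFun h1 i
    simp [z, heI] at h2
    exact hx h2
  let Ψ : (Fin r → V) ≃ₗ[ℚ] T := LinearEquiv.ofBijective (tot φ b₀) ⟨hinj b₀ hb₀, hsurj b₀ hb₀⟩
  let A : Matrix (Fin r) E (Module.End ℚ V) := fun i e =>
    (LinearMap.proj i).comp (Ψ.symm.toLinearMap.comp (φ e))
  have hA : ∀ i e x, A i e x = Ψ.symm (φ e x) i := fun _ _ _ => rfl
  have hunit : ∀ b : Fin r ↪ E, IsUnit (A.submatrix id b) ↔ Ind (univ.map b) := by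
    intro b
    have h1 : (endVecRingEquivMatrixEnd (Fin r) ℚ V).symm (A.submatrix id b)
        = Ψ.symm.toLinearMap.comp (tot φ b) := by
      apply LinearMap.ext
      intro u
      funext i
      show ∑ j, A i (b j) (u j) = Ψ.symm (tot φ b u) i
      rw [tot_apply, map_sum, Finset.sum_apply]
      rfl
    have h2 : IsUnit (A.submatrix id b) ↔
        IsUnit ((endVecRingEquivMatrixEnd (Fin r) ℚ V).symm (A.submatrix id b)) :=
      (MulEquiv.isUnit_map (endVecRingEquivMatrixEnd (Fin r) ℚ V).symm).symm
    rw [h2, h1, Module.End.isUnit_iff]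
    have h3 : Function.Bijective (Ψ.symm.toLinearMap.comp (tot φ b))
        ↔ Function.Bijective (tot φ b) := by
      rw [LinearMap.coe_comp]
      exact Function.Bijective.of_comp_iff' Ψ.symm.bijective _
    rw [h3]
    exact ⟨fun h => hdep b h.1, fun h => ⟨hinj b h, hsurj b h⟩⟩
  refine ⟨A, hunit, fun b N hN1 hN2 i j => ?_⟩
  have hb : Ind (univ.map b) := (hunit b).1 ⟨⟨_, N, hN2, hN1⟩, rfl⟩
  have hkey : ∀ x, tot φ b (fun k => (N * A) k j x) = φ j x := by
    intro x
    apply Ψ.symm.injective
    funext k
    have h1 : (A.submatrix id b * (N * A)) k j = A k j := by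
      rw [← Matrix.mul_assoc, hN2, Matrix.one_mul]
    have h2 := congrArg (fun f : Module.End ℚ V => f x) h1
    simp only [Matrix.mul_apply (M := A.submatrix id b), LinearMap.sum_apply,
      Module.End.mul_apply, Matrix.submatrix_apply, id] at h2
    rw [tot_apply, map_sum, Finset.sum_apply, ← hA, ← h2]
    rfl
  have herase : ∀ y : E → V, ∑ f ∈ (univ.map b).erase (b i), φ f (y f)
      = tot φ b (fun k => if k = i then 0 else y (b k)) := by
    intro y
    rw [← map_erase, sum_map, tot_apply, ← add_sum_erase univ _ (mem_univ i)]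
    simp only [if_true, map_zero, zero_add]
    refine sum_congr rfl fun k hk => ?_
    rw [if_neg (ne_of_mem_erase hk)]
  have hzero : (∀ x, ∃ y : E → V, φ j x = ∑ f ∈ (univ.map b).erase (b i), φ f (y f)) →
      (N * A) i j = 0 := by
    intro h
    apply LinearMap.ext
    intro x
    obtain ⟨y, hy⟩ := h x
    rw [herase, ← hkey] at hy
    have := congrFun (hinj b hb hy) i
    simpa using this
  have hIe : Ind ((univ.map b).erase (b i)) := hsub _ _ hb (erase_subset _ _)
  by_cases hj : j ∈ (univ.map b).erase (b i)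
  · left
    refine hzero fun x => ⟨Pi.single j x, ?_⟩
    rw [sum_eq_single j]
    · simp
    · intro f _ hf
      simp [hf]
    · intro h; exact absurd hj h
  by_cases hB' : Ind (insert j ((univ.map b).erase (b i)))
  swap
  · left
    exact hzero (H2 _ hIe j hj hB')
  right
  rw [Module.End.isUnit_iff]
  constructor
  · rw [injective_iff_map_eq_zero]
    intro x hx
    let u : Fin r → V := fun k => (N * A) k j x
    let y : E → V := fun f => if f = j then x else - Function.extend b u 0 f
    have h1 : ∑ f ∈ insert j ((univ.map b).erase (b i)), φ f (y f) = 0 := by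
      rw [sum_insert hj]
      have h2 : ∑ f ∈ (univ.map b).erase (b i), φ f (y f)
          = ∑ f ∈ (univ.map b).erase (b i), φ f (- Function.extend b u 0 f) := by
        refine sum_congr rfl fun f hf => ?_
        have : f ≠ j := fun h => hj (h ▸ hf)
        simp only [y, if_neg this]
      rw [h2, herase (fun f => - Function.extend b u 0 f)]
      have h3 : (fun k => if k = i then 0 else - Function.extend b u 0 (b k)) = - u := by
        funext k
        rw [b.injective.extend_apply]
        split_ifs with h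
        · rw [h]; simp [u, hx]
        · rfl
      rw [h3, map_neg, hkey]
      simp [y]
    have := H1 _ hB' y h1 j (mem_insert_self _ _)
    simpa [y] using this
  · intro y
    have hc : (insert j ((univ.map b).erase (b i))).card = r := by
      rw [card_insert_of_notMem hj, card_erase_of_mem (mem_map_of_mem b (mem_univ i))]
      have : 0 < r := i.pos
      simp only [card_map, card_univ, Fintype.card_fin]
      omega
    obtain ⟨x, hx⟩ := H3 _ hB' hc (φ (b i) y)
    rw [sum_insert hj, herase] at hx
    refine ⟨x j, ?_⟩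
    have h1 : tot φ b (Pi.single i y) = φ (b i) y := by
      rw [tot_apply, sum_eq_single i]
      · simp
      · intro k _ hk
        simp [hk]
      · intro h; exact absurd (mem_univ i) h
    rw [← h1, ← hkey, ← map_add] at hx
    have := congrFun (hinj b hb hx) i
    simpa using this.symm

end Pool.Agent.H374Z.Ing
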