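import Mathlib

/-!
# Strictly submodular block functions and their free expansion

A finite set `E` is split into blocks by a map `s : E → β`, and `ρ` is a strictly monotone and
strictly submodular function on sets of blocks.  A set `I ⊆ E` is independent when it has at most
`ρ S` elements in the blocks of `S`, for every set `S` of blocks.
-/

set_option autoImplicit false
set_option linter.unusedSectionVars false

namespace Pool.Agent.H374Z.Ing

open Finset

/-- Block data. -/
structure Poly (β E : Type) [DecidableEq β] where
  s : E → β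
  ρ : Finset β → ℕ
  ρ_empty : ρ ∅ = 0
  smono : ∀ S t, t ∉ S → ρ S < ρ (insert t S)
  submod : ∀ S T, ρ (S ∪ T) + ρ (S ∩ T) ≤ ρ S + ρ T
  strict : ∀ S T, ρ S + ρ T ≤ ρ (S ∪ T) + ρ (S ∩ T) → S ⊆ T ∨ T ⊆ S

variable {β E : Type} [DecidableEq β] [DecidableEq E] (P : Poly β E)

namespace Poly

/-- the number of elements of `I` in the blocks of `S` -/
def cnt (I : Finset E) (S : Finset β) : ℕ := (I.filter (fun e => P.s e ∈ S)).card

/-- independence -/
def Ind (I : Finset E) : Prop := ∀ S, P.cnt I S ≤ P.ρ S

/-- independence in the contraction by the blocks of `S` -/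
def Cond (S : Finset β) (I : Finset E) : Prop :=
  (∀ e ∈ I, P.s e ∉ S) ∧ ∀ S', S ⊆ S' → P.cnt I S' + P.ρ S ≤ P.ρ S'

theorem mono {S T : Finset β} (h : S ⊆ T) : P.ρ S ≤ P.ρ T := by
  induction T using Finset.induction_on generalizing S with
  | empty => rw [Finset.subset_empty.1 h]
  | insert t T ht ih =>
    by_cases htS : t ∈ S
    · have h1 := P.submod S T
      have h2 : S ∪ T = insert t T := by
        ext x
        simp only [mem_union, mem_insert]
        constructor
        · rintro (hx | hx)
          · exact mem_insert.1 (h hx)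
          · exact Or.inr hx
        · rintro (rfl | hx)
          · exact Or.inl htS
          · exact Or.inr hx
      by_cases hST : T ⊆ S
      · have : S = insert t T := by
          rw [← h2]; exact (union_eq_left.2 hST).symm
        rw [this]
      · -- use monotonicity along a chain
        have h3 : ∀ (U : Finset β) (V : Finset β), P.ρ V ≤ P.ρ (V ∪ U) := by
          intro U
          induction U using Finset.induction_on with
          | empty => intro V; simp
          | insert u U hu ihU =>
            intro V
            by_cases huV : u ∈ V ∪ U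
            · have : V ∪ insert u U = V ∪ U := by
                rw [union_insert, insert_eq_of_mem huV]
              rw [this]; exact ihU V
            · rw [union_insert]
              exact (ihU V).trans (P.smono _ _ huV).le
        rw [← h2]; exact h3 T S
    · have : S ⊆ T := fun x hx => by
        rcases mem_insert.1 (h hx) with rfl | h'
        · exact absurd hx htS
        · exact h'
      exact (ih this).trans (P.smono _ _ ht).le

theorem cnt_mono_left {I J : Finset E} (h : I ⊆ J) (S : Finset β) : P.cnt I S ≤ P.cnt J S :=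
  card_le_card (filter_subset_filter _ h)

theorem cnt_union_inter (I : Finset E) (S T : Finset β) :
    P.cnt I (S ∪ T) + P.cnt I (S ∩ T) = P.cnt I S + P.cnt I T := by
  unfold cnt
  rw [← card_union_add_card_inter (I.filter (fun e => P.s e ∈ S)), ← filter_or, ← filter_and]
  simp only [mem_union, mem_inter]

theorem cnt_insert (I : Finset E) {e : E} (he : e ∉ I) (S : Finset β) :
    P.cnt (insert e I) S = P.cnt I S + if P.s e ∈ S then 1 else 0 := by
  unfold cnt
  rw [filter_insert]
  split_ifs with h
  · rw [card_insert_of_notMem (fun h' => he (mem_filter.1 h').1)]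
  · rfl

theorem ind_subset {I J : Finset E} (hJ : P.Ind J) (h : I ⊆ J) : P.Ind I :=
  fun S => (P.cnt_mono_left h S).trans (hJ S)

theorem ind_empty : P.Ind ∅ := fun S => by simp [cnt]

theorem tight_union {I : Finset E} (hI : P.Ind I) {S T : Finset β} (hS : P.cnt I S = P.ρ S)
    (hT : P.cnt I T = P.ρ T) : P.cnt I (S ∪ T) = P.ρ (S ∪ T) := by
  have h1 := P.cnt_union_inter I S T
  have h2 := P.submod S T
  have h3 := hI (S ∪ T)
  have h4 := hI (S ∩ T)
  omega

/-- if `e` cannot be added to `I`, its block lies in a tight set -/
theorem exists_tight {I : Finset E} (hI : P.Ind I) {e : E} (he : e ∉ I)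
    (hn : ¬ P.Ind (insert e I)) : ∃ S, P.s e ∈ S ∧ P.cnt I S = P.ρ S := by
  unfold Ind at hn
  push Not at hn
  obtain ⟨S, hS⟩ := hn
  rw [P.cnt_insert I he] at hS
  have := hI S
  split_ifs at hS with h
  · exact ⟨S, h, by omega⟩
  · omega

/-- a tight set containing the blocks of all elements of `J` which cannot be added -/
theorem exists_tight_all {I : Finset E} (hI : P.Ind I) (J : Finset E)
    (hn : ∀ e ∈ J, e ∉ I → ¬ P.Ind (insert e I)) :
    ∃ S, P.cnt I S = P.ρ S ∧ ∀ e ∈ J, e ∉ I → P.s e ∈ S := by
  induction J using Finset.induction_on with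
  | empty => exact ⟨∅, by simp [cnt, P.ρ_empty], by simp⟩
  | insert a J ha ih =>
    obtain ⟨S, hS, hS'⟩ := ih (fun e he => hn e (mem_insert_of_mem he))
    by_cases haI : a ∈ I
    · refine ⟨S, hS, fun e he heI => ?_⟩
      rcases mem_insert.1 he with rfl | he
      · exact absurd haI heI
      · exact hS' e he heI
    · obtain ⟨T, hT, hT'⟩ := P.exists_tight hI haI (hn a (mem_insert_self _ _) haI)
      refine ⟨S ∪ T, P.tight_union hI hS hT', fun e he heI => ?_⟩
      rcases mem_insert.1 he with rfl | he
      · exact mem_union_right _ hT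
      · exact mem_union_left _ (hS' e he heI)

theorem ind_aug {I J : Finset E} (hI : P.Ind I) (hJ : P.Ind J) (h : I.card < J.card) :
    ∃ e ∈ J, e ∉ I ∧ P.Ind (insert e I) := by
  by_contra hcon
  push Not at hcon
  obtain ⟨S, hS, hS'⟩ := P.exists_tight_all hI J hcon
  have h1 := card_filter_add_card_filter_not (s := I) (fun e => P.s e ∈ S)
  have h2 := card_filter_add_card_filter_not (s := J) (fun e => P.s e ∈ S)
  have h3 : (J.filter (fun e => ¬ P.s e ∈ S)).card ≤ (I.filter (fun e => ¬ P.s e ∈ S)).card := by
    apply card_le_card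
    intro e he
    rw [mem_filter] at he ⊢
    refine ⟨?_, he.2⟩
    by_contra heI
    exact he.2 (hS' e he.1 heI)
  have h4 := hJ S
  unfold cnt at hS h4
  omega

theorem cond_empty {I : Finset E} (hI : P.Ind I) : P.Cond ∅ I :=
  ⟨fun _ _ => notMem_empty _, fun S' _ => by rw [P.ρ_empty]; exact hI S'⟩

theorem ind_single (e : E) : P.Ind {e} := by
  intro S
  unfold cnt
  by_cases h : P.s e ∈ S
  · have h1 := P.smono ∅ (P.s e) (notMem_empty _)
    have h2 : P.ρ (insert (P.s e) ∅) ≤ P.ρ S := P.mono (by simpa using h)
    have h3 : (({e} : Finset E).filter (fun e => P.s e ∈ S)).card ≤ 1 :=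
      (card_filter_le _ _).trans (by simp)
    omega
  · have : (({e} : Finset E).filter (fun e => P.s e ∈ S)) = ∅ := by
      rw [filter_eq_empty_iff]
      intro x hx
      rw [mem_singleton.1 hx]; exact h
    rw [this]; simp

/-- the part of an independent set outside a tight set is independent in the contraction -/
theorem cond_of_tight {B : Finset E} (hB : P.Ind B) {S : Finset β} (hS : P.cnt B S = P.ρ S) :
    P.Cond S (B.filter (fun e => P.s e ∉ S)) := by
  refine ⟨fun e he => (mem_filter.1 he).2, fun S' hS' => ?_⟩
  have h1 := card_filter_add_card_filter_not (s := B.filter (fun e => P.s e ∈ S'))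
    (fun e => P.s e ∈ S)
  have h2 : (B.filter (fun e => P.s e ∈ S')).filter (fun e => P.s e ∈ S)
      = B.filter (fun e => P.s e ∈ S) := by
    ext e
    simp only [mem_filter]
    exact ⟨fun h => ⟨h.1.1, h.2⟩, fun h => ⟨⟨h.1, hS' h.2⟩, h.2⟩⟩
  have h3 : (B.filter (fun e => P.s e ∈ S')).filter (fun e => ¬ P.s e ∈ S)
      = (B.filter (fun e => P.s e ∉ S)).filter (fun e => P.s e ∈ S') := by
    ext e
    simp only [mem_filter]
    tauto
  have h4 := hB S'
  rw [h2, h3] at h1
  unfold cnt at *
  omega

end Poly

end Pool.Agent.H374Z.Ing
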