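import Pool.Agent.H374Z.Ing.Arr
import Pool.Agent.H374Z.Ing.Mat

/-!
# The free expansion of a strictly submodular block function is representable over a ring
-/

set_option autoImplicit false
set_option linter.unusedSectionVars false

namespace Pool.Agent.H374Z.Ing

open Finset

variable {β E : Type} [DecidableEq β] [DecidableEq E] [Fintype β] (P : Poly β E)

namespace Poly

theorem card_le_of_ind {I : Finset E} (hI : P.Ind I) : I.card ≤ P.ρ univ := by
  have := hI univ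
  simpa [cnt] using this

theorem exists_ext {B₀ : Finset E} (h₀ : P.Ind B₀) (hc : B₀.card = P.ρ univ) (k : ℕ) :
    ∀ I : Finset E, P.Ind I → I.card + k = P.ρ univ →
      ∃ B, I ⊆ B ∧ P.Ind B ∧ B.card = P.ρ univ := by
  induction k with
  | zero => exact fun I hI h => ⟨I, Subset.rfl, hI, h⟩
  | succ k ih =>
    intro I hI h
    obtain ⟨e, -, heI, he⟩ := P.ind_aug hI h₀ (by omega)
    obtain ⟨B, h1, h2, h3⟩ := ih (insert e I) he (by rw [card_insert_of_notMem heI]; omega)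
    exact ⟨B, (subset_insert _ _).trans h1, h2, h3⟩

theorem exists_ext' {B₀ : Finset E} (h₀ : P.Ind B₀) (hc : B₀.card = P.ρ univ)
    {I : Finset E} (hI : P.Ind I) : ∃ B, I ⊆ B ∧ P.Ind B ∧ B.card = P.ρ univ :=
  P.exists_ext h₀ hc (P.ρ univ - I.card) I hI (by have := P.card_le_of_ind hI; omega)

/-- the matroid of the block function -/
def mat : Matroid E :=
  (IndepMatroid.ofFinset Set.univ P.Ind P.ind_empty (fun _ _ hJ h => P.ind_subset hJ h)
    (fun _ _ hI hJ h => P.ind_aug hI hJ h) (fun _ _ => Set.subset_univ _)).matroid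

theorem mat_E : P.mat.E = Set.univ := rfl

theorem mat_indep (I : Finset E) : P.mat.Indep (I : Set E) ↔ P.Ind I := by
  unfold mat
  rw [IndepMatroid.matroid_indep_iff, IndepMatroid.ofFinset_indep]

theorem mat_base [Fintype E] {B₀ : Finset E} (h₀ : P.Ind B₀) (hc : B₀.card = P.ρ univ)
    (B : Finset E) : P.mat.IsBase (B : Set E) ↔ P.Ind B ∧ B.card = P.ρ univ := by
  constructor
  · intro h
    have h1 := (P.mat_indep B).1 h.indep
    obtain ⟨B', h2, h3, h4⟩ := P.exists_ext' h₀ hc h1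
    have h5 := h.eq_of_subset_indep ((P.mat_indep B').2 h3) (coe_subset.2 h2)
    rw [coe_inj] at h5
    exact ⟨h1, h5 ▸ h4⟩
  · rintro ⟨h1, h2⟩
    refine ((P.mat_indep B).2 h1).isBase_of_maximal fun J hJ hBJ => ?_
    lift J to Finset E using Set.toFinite J
    have h3 := P.card_le_of_ind ((P.mat_indep J).1 hJ)
    rw [coe_inj]
    exact eq_of_subset_of_card_le (coe_subset.1 hBJ) (by omega)

theorem eRk_le [Fintype E] (S : Finset β) (X : Set E) (hX : ∀ e ∈ X, P.s e ∈ S) :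
    P.mat.eRk X ≤ P.ρ S := by
  rw [Matroid.eRk_le_iff]
  intro I hIX hI
  lift I to Finset E using Set.toFinite I
  have h1 := (P.mat_indep I).1 hI S
  unfold cnt at h1
  rw [filter_true_of_mem (fun e he => hX e (hIX he))] at h1
  rw [Set.encard_coe_eq_coe_finsetCard]
  exact_mod_cast h1

theorem le_eRk (I : Finset E) (hI : P.Ind I) (X : Set E) (hX : ∀ e ∈ I, e ∈ X) :
    (I.card : ℕ∞) ≤ P.mat.eRk X := by
  rw [← Set.encard_coe_eq_coe_finsetCard]
  exact ((P.mat_indep I).2 hI).encard_le_eRk_of_subset (fun e he => hX e he)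

/-- **Representation theorem.** -/
theorem representable [Fintype E] [Nonempty E] {B₀ : Finset E} (h₀ : P.Ind B₀)
    (hc : B₀.card = P.ρ univ) :
    ∃ A : Matrix (Fin (P.ρ univ)) E (Module.End ℚ (ℕ →₀ ℚ)),
      (∀ (b : Fin (P.ρ univ) ↪ E)
        (N : Matrix (Fin (P.ρ univ)) (Fin (P.ρ univ)) (Module.End ℚ (ℕ →₀ ℚ))),
        N * A.submatrix id b = 1 → A.submatrix id b * N = 1 →
        ∀ i j, (N * A) i j = 0 ∨ IsUnit ((N * A) i j)) ∧
      (∀ B : Set E, P.mat.IsBase B ↔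
        ∃ b : Fin (P.ρ univ) ↪ E, Set.range b = B ∧ IsUnit (A.submatrix id b)) := by
  obtain ⟨φ, h1, h2, h3⟩ := P.exists_arr
  have hemb : ∀ B : Finset E, B.card = P.ρ univ → ∃ b : Fin (P.ρ univ) ↪ E, univ.map b = B := by
    intro B hB
    refine ⟨(B.equivFinOfCardEq hB).symm.toEmbedding.trans (Function.Embedding.subtype _), ?_⟩
    ext e
    simp only [mem_map, mem_univ, true_and, Function.Embedding.trans_apply,
      Equiv.coe_toEmbedding, Function.Embedding.coe_subtype]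
    constructor
    · rintro ⟨i, rfl⟩
      exact ((B.equivFinOfCardEq hB).symm i).2
    · intro he
      exact ⟨B.equivFinOfCardEq hB ⟨e, he⟩, by simp⟩
  obtain ⟨b₀, hb₀⟩ := hemb B₀ hc
  obtain ⟨A, hA1, hA2⟩ := exists_matrix P.Ind (P.ρ univ) φ P.ind_empty
    (fun I J hJ h => P.ind_subset hJ h)
    (fun I hI x hx => h2 ∅ I (P.cond_empty hI) x (by rw [hx]; exact Submodule.zero_mem _))
    (by
      intro I hI e heI hn x
      obtain ⟨S, heS, hS⟩ := P.exists_tight hI heI hn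
      obtain ⟨B, hIB, hB, hBc⟩ := P.exists_ext' h₀ hc hI
      have hle := P.cnt_mono_left hIB S
      have hBS : P.cnt B S = P.ρ S := le_antisymm (hB S) (hS ▸ hle)
      have hfil : I.filter (fun e => P.s e ∈ S) = B.filter (fun e => P.s e ∈ S) :=
        eq_of_subset_of_card_le (filter_subset_filter _ hIB) (by
          unfold cnt at hBS hS; omega)
      obtain ⟨y, hy⟩ := h3 B hB hBc (φ e x)
      rw [← sum_filter_add_sum_filter_not B (fun e => P.s e ∈ S)] at hy
      have h4 : ∑ f ∈ B.filter (fun e => P.s e ∉ S), φ f (y f) ∈ P.VS S := by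
        have h5 : ∑ f ∈ B.filter (fun e => P.s e ∉ S), φ f (y f)
            = φ e x - ∑ f ∈ B.filter (fun e => P.s e ∈ S), φ f (y f) := by
          rw [hy]; abel
        rw [h5]
        refine Submodule.sub_mem _ (P.VS_single_le heS (h1 e x))
          (Submodule.sum_mem _ fun f hf => P.VS_single_le (mem_filter.1 hf).2 (h1 f _))
      have h6 := h2 S _ (P.cond_of_tight hB hBS) y h4
      have h7 : ∑ f ∈ B.filter (fun e => P.s e ∉ S), φ f (y f) = 0 :=
        sum_eq_zero fun f hf => by rw [h6 f hf, map_zero]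
      refine ⟨fun f => if P.s f ∈ S then y f else 0, ?_⟩
      rw [hy, h7, add_zero, ← hfil, sum_filter]
      refine sum_congr rfl fun f _ => ?_
      by_cases hf : P.s f ∈ S <;> simp [hf])
    h3 b₀ (hb₀ ▸ h₀)
  refine ⟨A, hA2, fun B => ?_⟩
  lift B to Finset E using Set.toFinite B
  rw [P.mat_base h₀ hc]
  constructor
  · rintro ⟨hB, hBc⟩
    obtain ⟨b, hb⟩ := hemb B hBc
    refine ⟨b, ?_, (hA1 b).2 (hb ▸ hB)⟩
    rw [← hb]; simp
  · rintro ⟨b, hb, hu⟩
    have : univ.map b = B := by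
      rw [← coe_inj, ← hb]; simp
    rw [← this]
    exact ⟨(hA1 b).1 hu, by simp⟩

end Poly

/-- the block function: a strictly submodular function on four blocks which violates
Ingleton's inequality -/
def rho (S : Finset (Fin 4)) : ℕ :=
  if S.card = 0 then 0 else if S.card = 1 then 10 else
    if S.card = 2 then (if 2 ∈ S ∧ 3 ∈ S then 19 else 16) else if S.card = 3 then 21 else 22

/-- the example -/
def ex : Poly (Fin 4) (Fin 4 × Fin 10) where
  s := Prod.fst
  ρ := rho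
  ρ_empty := by decide
  smono := by decide +kernel
  submod := by decide +kernel
  strict := by decide +kernel

/-- initial segments of the four blocks -/
def seg (a b c d : ℕ) : Finset (Fin 4 × Fin 10) :=
  univ.filter (fun e => e.2.val < ![a, b, c, d] e.1)

instance (I : Finset (Fin 4 × Fin 10)) : Decidable (ex.Ind I) := by
  unfold Poly.Ind; infer_instance

theorem seg_base : ex.Ind (seg 6 6 5 5) ∧ (seg 6 6 5 5).card = ex.ρ univ := by decide +kernel

theorem seg_P : ex.Ind (seg 10 0 0 0) ∧ (seg 10 0 0 0).card = 10 ∧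
    ∀ e ∈ seg 10 0 0 0, e.1 = 0 := by decide +kernel

theorem seg_Q : ex.Ind (seg 0 10 0 0) ∧ (seg 0 10 0 0).card = 10 ∧
    ∀ e ∈ seg 0 10 0 0, e.1 = 1 := by decide +kernel

theorem seg_PQS : ex.Ind (seg 7 7 7 0) ∧ (seg 7 7 7 0).card = 21 ∧
    ∀ e ∈ seg 7 7 7 0, (e.1 = 0 ∨ e.1 = 1) ∨ e.1 = 2 := by decide +kernel

theorem seg_PQT : ex.Ind (seg 7 7 0 7) ∧ (seg 7 7 0 7).card = 21 ∧
    ∀ e ∈ seg 7 7 0 7, (e.1 = 0 ∨ e.1 = 1) ∨ e.1 = 3 := by decide +kernel

theorem seg_ST : ex.Ind (seg 0 0 10 9) ∧ (seg 0 0 10 9).card = 19 ∧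
    ∀ e ∈ seg 0 0 10 9, e.1 = 2 ∨ e.1 = 3 := by decide +kernel

/-- a block of the example -/
def blk (i : Fin 4) : Set (Fin 4 × Fin 10) := {e | e.1 = i}

theorem pair_le (i j : Fin 4) (h : rho {i, j} = 16) : ex.mat.eRk (blk i ∪ blk j) ≤ 16 := by
  have := ex.eRk_le {i, j} (blk i ∪ blk j) (by
    rintro e (he | he)
    · exact mem_insert.2 (Or.inl he)
    · exact mem_insert.2 (Or.inr (mem_singleton.2 he)))
  have h2 : ex.ρ {i, j} = 16 := h
  rw [h2] at this
  exact_mod_cast this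

theorem violation : ¬ (ex.mat.eRk (blk 0) + ex.mat.eRk (blk 1)
    + ex.mat.eRk (blk 0 ∪ blk 1 ∪ blk 2) + ex.mat.eRk (blk 0 ∪ blk 1 ∪ blk 3)
    + ex.mat.eRk (blk 2 ∪ blk 3) ≤ ex.mat.eRk (blk 0 ∪ blk 1) + ex.mat.eRk (blk 0 ∪ blk 2)
    + ex.mat.eRk (blk 0 ∪ blk 3) + ex.mat.eRk (blk 1 ∪ blk 2) + ex.mat.eRk (blk 1 ∪ blk 3)) := by
  intro h
  have l1 := ex.le_eRk _ seg_P.1 (blk 0) seg_P.2.2
  have l2 := ex.le_eRk _ seg_Q.1 (blk 1) seg_Q.2.2
  have l3 := ex.le_eRk _ seg_PQS.1 (blk 0 ∪ blk 1 ∪ blk 2) seg_PQS.2.2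
  have l4 := ex.le_eRk _ seg_PQT.1 (blk 0 ∪ blk 1 ∪ blk 3) seg_PQT.2.2
  have l5 := ex.le_eRk _ seg_ST.1 (blk 2 ∪ blk 3) seg_ST.2.2
  rw [seg_P.2.1] at l1
  rw [seg_Q.2.1] at l2
  rw [seg_PQS.2.1] at l3
  rw [seg_PQT.2.1] at l4
  rw [seg_ST.2.1] at l5
  have u1 := pair_le 0 1 (by decide)
  have u2 := pair_le 0 2 (by decide)
  have u3 := pair_le 0 3 (by decide)
  have u4 := pair_le 1 2 (by decide)
  have u5 := pair_le 1 3 (by decide)
  have a1 := add_le_add (add_le_add (add_le_add (add_le_add l1 l2) l3) l4) l5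
  have a2 := add_le_add (add_le_add (add_le_add (add_le_add u1 u2) u3) u4) u5
  have a3 := (a1.trans h).trans a2
  norm_num at a3

end Pool.Agent.H374Z.Ing
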