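import Pool.Agent.H374Z.Ing.Poly

/-!
# One step of the back-and-forth construction
-/

set_option autoImplicit false
set_option linter.unusedSectionVars false

namespace Pool.Agent.H374Z.Ing

open Finset

/-- the ambient space -/
abbrev TT (E : Type) : Type := (ℕ × E × E) →₀ ℚ

/-- vectors supported on levels below `n` -/
noncomputable def Lev (E : Type) (n : ℕ) : Submodule ℚ (TT E) :=
  Finsupp.supported ℚ ℚ {p : ℕ × E × E | p.1 < n}

theorem Lev_mono (E : Type) {m n : ℕ} (h : m ≤ n) : Lev E m ≤ Lev E n :=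
  Finsupp.supported_mono (fun _ hp => lt_of_lt_of_le hp h)

variable {β E : Type} [DecidableEq β] [DecidableEq E] (P : Poly β E)

/-- the fresh vectors of level `n` -/
noncomputable def zz (n : ℕ) (D : Finset E) (e : E) : TT E :=
  if e ∈ D then ∑ f ∈ D, (Finsupp.single (n, e, f) (1 : ℚ) - Finsupp.single (n, f, e) 1)
  else Finsupp.single (n, e, e) 1

theorem zz_mem_Lev (n : ℕ) (D : Finset E) (e : E) : zz n D e ∈ Lev E (n + 1) := by
  unfold zz
  split_ifs
  · refine Submodule.sum_mem _ fun f _ => Submodule.sub_mem _ ?_ ?_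
    · exact Finsupp.single_mem_supported _ _ (Nat.lt_succ_self n)
    · exact Finsupp.single_mem_supported _ _ (Nat.lt_succ_self n)
  · exact Finsupp.single_mem_supported _ _ (Nat.lt_succ_self n)

theorem zz_sum (n : ℕ) (D : Finset E) : ∑ e ∈ D, zz n D e = 0 := by
  have : ∑ e ∈ D, zz n D e = ∑ e ∈ D, ∑ f ∈ D,
      (Finsupp.single (n, e, f) (1 : ℚ) - Finsupp.single (n, f, e) 1) :=
    sum_congr rfl fun e he => by simp only [zz, if_pos he]
  rw [this]
  simp only [sum_sub_distrib]
  rw [sub_eq_zero]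
  exact sum_comm

theorem zz_apply (n : ℕ) (D : Finset E) (g e f : E) :
    zz n D g (n, e, f) = if g ∈ D then
      ((if g = e ∧ f ∈ D then 1 else 0) - (if g = f ∧ e ∈ D then 1 else 0))
      else (if g = e ∧ g = f then 1 else 0) := by
  unfold zz
  by_cases hg : g ∈ D
  · simp only [if_pos hg]
    rw [Finsupp.finsetSum_apply]
    simp only [Finsupp.sub_apply, sum_sub_distrib, Finsupp.single_apply, Prod.mk.injEq, true_and]
    congr 1
    · by_cases h : g = e
      · simp [h]
      · simp [h]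
    · by_cases h : g = f
      · simp [h]
      · simp [h]
  · simp only [if_neg hg, Finsupp.single_apply, Prod.mk.injEq, true_and]

namespace Poly

/-- the subspace attached to a set of blocks -/
noncomputable def VS (S : Finset β) : Submodule ℚ (TT E) :=
  Finsupp.supported ℚ ℚ {p : ℕ × E × E | P.s p.2.1 ∈ S ∨ P.s p.2.2 ∈ S}

theorem VS_mono {S T : Finset β} (h : S ⊆ T) : P.VS S ≤ P.VS T :=
  Finsupp.supported_mono (fun _ hp => hp.imp (fun h' => h h') (fun h' => h h'))

theorem VS_single_le {S : Finset β} {e : E} (h : P.s e ∈ S) : P.VS {P.s e} ≤ P.VS S :=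
  P.VS_mono (by simpa using h)

theorem VS_empty : P.VS ∅ = ⊥ := by
  unfold VS
  simp

theorem VS_univ [Fintype β] : P.VS univ = ⊤ := by
  unfold VS
  simp

theorem zz_mem_VS (n : ℕ) (D : Finset E) (e : E) : zz n D e ∈ P.VS {P.s e} := by
  unfold zz
  split_ifs
  · refine Submodule.sum_mem _ fun f _ => Submodule.sub_mem _ ?_ ?_
    · exact Finsupp.single_mem_supported _ _ (Or.inl (mem_singleton_self _))
    · exact Finsupp.single_mem_supported _ _ (Or.inr (mem_singleton_self _))
  · exact Finsupp.single_mem_supported _ _ (Or.inl (mem_singleton_self _))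

/-- the invariant of the construction -/
def Inv (O : E → Submodule ℚ (TT E)) : Prop :=
  ∀ S I, P.Cond S I → ∀ o : E → TT E, (∀ e, o e ∈ O e) → ∑ e ∈ I, o e ∈ P.VS S →
    ∀ e ∈ I, o e = 0

/-- the new vectors are independent from the old ones -/
def NewInd (O : E → Submodule ℚ (TT E)) (w : E → TT E) : Prop :=
  ∀ S I, P.Cond S I → ∀ (o : E → TT E) (c : E → ℚ), (∀ e, o e ∈ O e) →
    ∑ e ∈ I, (o e + c e • w e) ∈ P.VS S → ∀ e ∈ I, c e = 0

theorem fresh (n : ℕ) (O : E → Submodule ℚ (TT E)) (hO : ∀ e, O e ≤ Lev E n)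
    (D : Finset E) (a : E → TT E) (ha : ∀ e, a e ∈ Lev E n)
    (hK : ∀ S I, P.Cond S I → D.filter (fun e => P.s e ∉ S) ⊆ I →
      (D.filter (fun e => P.s e ∉ S)).Nonempty → ∀ (o : E → TT E) (l : ℚ), (∀ e, o e ∈ O e) →
      ∑ e ∈ I, o e + l • ∑ e ∈ D.filter (fun e => P.s e ∉ S), a e ∈ P.VS S → l = 0) :
    P.NewInd O (fun e => a e + zz n D e) := by
  intro S I hC o c ho hsum
  -- coordinates of level `n` outside `S`
  have hco : ∀ e f : E, P.s e ∉ S → P.s f ∉ S → ∑ g ∈ I, c g * zz n D g (n, e, f) = 0 := by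
    intro e f he hf
    have h1 := (Finsupp.mem_supported' ℚ _).1 hsum (n, e, f) (by
      simp only [Set.mem_ofPred_eq, not_or]; exact ⟨he, hf⟩)
    rw [Finsupp.finsetSum_apply] at h1
    rw [← h1]
    refine sum_congr rfl fun g _ => ?_
    have h2 : o g (n, e, f) = 0 :=
      (Finsupp.mem_supported' ℚ _).1 (hO g (ho g)) (n, e, f) (by simp)
    have h3 : a g (n, e, f) = 0 := (Finsupp.mem_supported' ℚ _).1 (ha g) (n, e, f) (by simp)
    simp [h2, h3]
  have hout : ∀ e ∈ I, e ∉ D → c e = 0 := by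
    intro e he heD
    have h1 := hco e e (hC.1 e he) (hC.1 e he)
    rw [sum_eq_single e] at h1
    · simpa [zz_apply, heD] using h1
    · intro g _ hge
      simp [zz_apply, hge]
    · intro h; exact absurd he h
  have hin : ∀ e ∈ I, e ∈ D → ∀ f ∈ D, P.s f ∉ S → c e = if f ∈ I then c f else 0 := by
    intro e he heD f hfD hf
    by_cases hef : e = f
    · subst hef; simp [he]
    have h1 := hco e f (hC.1 e he) hf
    have h2 : ∀ g ∈ I, c g * zz n D g (n, e, f)
        = (if g = e then c g else 0) - (if g = f then c g else 0) := by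
      intro g _
      rw [zz_apply]
      by_cases hgD : g ∈ D
      · simp only [if_pos hgD, hfD, heD, and_true]
        split_ifs <;> ring
      · have h3 : g ≠ e := fun h => hgD (h ▸ heD)
        have h4 : g ≠ f := fun h => hgD (h ▸ hfD)
        simp [hgD, h3, h4]
    rw [sum_congr rfl h2, sum_sub_distrib, sum_ite_eq' I e, sum_ite_eq' I f, if_pos he] at h1
    linarith
  intro e he
  by_cases heD : e ∈ D
  swap
  · exact hout e he heD
  by_contra hce
  have hsub : D.filter (fun e => P.s e ∉ S) ⊆ I := by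
    intro f hf
    rw [mem_filter] at hf
    by_contra hfI
    have := hin e he heD f hf.1 hf.2
    rw [if_neg hfI] at this
    exact hce this
  have hconst : ∀ w : E → TT E, ∑ g ∈ I, c g • w g
      = c e • ∑ g ∈ D.filter (fun e => P.s e ∉ S), w g := by
    intro w
    rw [smul_sum, ← sum_subset hsub]
    · refine sum_congr rfl fun f hf => ?_
      have h1 := mem_filter.1 hf
      have := hin e he heD f h1.1 h1.2
      rw [if_pos (hsub hf)] at this
      rw [this]
    · intro f hfI hf
      have : f ∉ D := fun hfD => hf (mem_filter.2 ⟨hfD, hC.1 f hfI⟩)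
      rw [hout f hfI this, zero_smul]
  have hz : ∑ g ∈ D.filter (fun e => P.s e ∉ S), zz n D g ∈ P.VS S := by
    have h1 := sum_filter_add_sum_filter_not D (fun e => P.s e ∈ S) (zz n D)
    rw [zz_sum] at h1
    have h2 : ∑ g ∈ D.filter (fun e => P.s e ∉ S), zz n D g
        = - ∑ g ∈ D.filter (fun e => P.s e ∈ S), zz n D g := by
      rw [eq_neg_iff_add_eq_zero, add_comm]; exact h1
    rw [h2]
    refine Submodule.neg_mem _ (Submodule.sum_mem _ fun g hg => ?_)
    exact P.VS_single_le (mem_filter.1 hg).2 (P.zz_mem_VS n D g)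
  apply hce
  refine hK S I hC hsub ⟨e, mem_filter.2 ⟨heD, hC.1 e he⟩⟩ o (c e) ho ?_
  have h3 : ∑ g ∈ I, (o g + c g • (a g + zz n D g))
      = (∑ g ∈ I, o g + c e • ∑ g ∈ D.filter (fun e => P.s e ∉ S), a g)
        + c e • ∑ g ∈ D.filter (fun e => P.s e ∉ S), zz n D g := by
    rw [← hconst a, ← hconst (zz n D)]
    simp only [smul_add, sum_add_distrib]
    abel
  simp only at hsum
  rw [h3] at hsum
  exact (Submodule.add_mem_iff_left _ (Submodule.smul_mem _ _ hz)).1 hsum

/-- decomposition of a vector along the blocks of a tight set -/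
theorem decomp (n : ℕ) {B : Finset E} (hB : P.Ind B) {S : Finset β} (hS : P.cnt B S = P.ρ S)
    {v : TT E} (hv : v ∈ P.VS S) (hl : v ∈ Lev E n) :
    ∃ a : E → TT E, (∀ e, a e ∈ P.VS {P.s e}) ∧ (∀ e, a e ∈ Lev E n) ∧
      ∑ e ∈ B.filter (fun e => P.s e ∈ S), a e = v := by
  have hmeet : ∀ t ∈ S, ∃ e ∈ B.filter (fun e => P.s e ∈ S), P.s e = t := by
    intro t ht
    by_contra hcon
    push Not at hcon
    have h1 : B.filter (fun e => P.s e ∈ S) = B.filter (fun e => P.s e ∈ S.erase t) := by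
      ext e
      simp only [mem_filter, mem_erase]
      exact ⟨fun h => ⟨h.1, hcon e (mem_filter.2 h), h.2⟩, fun h => ⟨h.1, h.2.2⟩⟩
    have h2 := hB (S.erase t)
    have h3 := P.smono (S.erase t) t (notMem_erase t S)
    rw [insert_erase ht] at h3
    unfold cnt at hS h2
    rw [h1] at hS
    omega
  have key : v ∈ ⨆ e ∈ B.filter (fun e => P.s e ∈ S), (P.VS {P.s e} ⊓ Lev E n) := by
    have h1 : v ∈ P.VS S ⊓ Lev E n := ⟨hv, hl⟩
    unfold VS Lev at h1
    rw [← Finsupp.supported_inter, Finsupp.supported_eq_span_single] at h1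
    refine Submodule.span_le.2 ?_ h1
    rintro _ ⟨p, ⟨hp1, hp2⟩, rfl⟩
    rcases hp1 with hp1 | hp1
    · obtain ⟨e, he, hes⟩ := hmeet _ hp1
      refine Submodule.mem_iSup_of_mem e (Submodule.mem_iSup_of_mem he ⟨?_, ?_⟩)
      · exact Finsupp.single_mem_supported _ _ (Or.inl (by simp [hes]))
      · exact Finsupp.single_mem_supported _ _ hp2
    · obtain ⟨e, he, hes⟩ := hmeet _ hp1
      refine Submodule.mem_iSup_of_mem e (Submodule.mem_iSup_of_mem he ⟨?_, ?_⟩)
      · exact Finsupp.single_mem_supported _ _ (Or.inr (by simp [hes]))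
      · exact Finsupp.single_mem_supported _ _ hp2
  obtain ⟨μ, hμ⟩ := (Submodule.mem_iSup_finset_iff_exists_sum _ _).1 key
  exact ⟨fun e => μ e, fun e => (μ e).2.1, fun e => (μ e).2.2, hμ⟩

/-- **The extension step.** -/
theorem step [Fintype β] (n : ℕ) (O : E → Submodule ℚ (TT E)) (hO : ∀ e, O e ≤ Lev E n)
    (hOV : ∀ e, O e ≤ P.VS {P.s e}) (hI : P.Inv O) (B : Finset E) (hB : P.Ind B)
    (hBc : B.card = P.ρ univ) (v : TT E) (hv : v ∈ Lev E n) :
    ∃ w : E → TT E, (∀ e, w e ∈ P.VS {P.s e}) ∧ (∀ e, w e ∈ Lev E (n + 1)) ∧ P.NewInd O w ∧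
      ∃ (o : E → TT E) (c : E → ℚ), (∀ e, o e ∈ O e) ∧ v = ∑ e ∈ B, (o e + c e • w e) := by
  classical
  let good : Finset β → Prop := fun S => P.cnt B S = P.ρ S ∧
    ∃ o : E → TT E, (∀ e, o e ∈ O e) ∧ v - ∑ e ∈ B, o e ∈ P.VS S
  have hne : ∃ S, good S := by
    refine ⟨univ, ?_, fun _ => 0, fun e => Submodule.zero_mem _, ?_⟩
    · simp [cnt, hBc]
    · rw [P.VS_univ]; trivial
  obtain ⟨S₀, ⟨hS₀, o₀, ho₀, hv₀⟩, hmin⟩ : ∃ S₀, good S₀ ∧ ∀ S, good S → S₀.card ≤ S.card := by
    obtain ⟨S₀, h1, h2⟩ := (univ.filter good).exists_min_image (fun S => S.card)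
      (by obtain ⟨S, hS⟩ := hne; exact ⟨S, mem_filter.2 ⟨mem_univ _, hS⟩⟩)
    exact ⟨S₀, (mem_filter.1 h1).2, fun S hS => h2 S (mem_filter.2 ⟨mem_univ _, hS⟩)⟩
  have hl₀ : v - ∑ e ∈ B, o₀ e ∈ Lev E n :=
    Submodule.sub_mem _ hv (Submodule.sum_mem _ fun e _ => hO e (ho₀ e))
  obtain ⟨a, haV, haL, hav⟩ := P.decomp n hB hS₀ hv₀ hl₀
  set D := B.filter (fun e => P.s e ∈ S₀) with hD
  refine ⟨fun e => a e + zz n D e, fun e => Submodule.add_mem _ (haV e) (P.zz_mem_VS n D e),
    fun e => Submodule.add_mem _ (Lev_mono E (Nat.le_succ n) (haL e)) (zz_mem_Lev n D e),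
    P.fresh n O hO D a haL ?_, o₀, fun e => if e ∈ D then 1 else 0, ho₀, ?_⟩
  · intro S I hC hsub hnon o l ho hsum
    by_contra hl
    set D' := D.filter (fun e => P.s e ∉ S) with hD'
    have h1 : D'.card ≤ P.cnt I (S ∪ S₀) := by
      apply card_le_card
      intro e he
      have := mem_filter.1 (mem_filter.1 he).1
      exact mem_filter.2 ⟨hsub he, mem_union_right _ this.2⟩
    have h2 : D'.card + P.cnt B (S ∩ S₀) = P.ρ S₀ := by
      have h3 := card_filter_add_card_filter_not (s := D) (fun e => P.s e ∈ S)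
      have h4 : D.filter (fun e => P.s e ∈ S) = B.filter (fun e => P.s e ∈ S ∩ S₀) := by
        ext e
        simp only [hD, mem_filter, mem_inter]
        tauto
      rw [h4] at h3
      have h5 : D.card = P.ρ S₀ := hS₀
      unfold cnt
      rw [← hD'] at h3
      omega
    have h3 := hC.2 (S ∪ S₀) subset_union_left
    have h4 := hB (S ∩ S₀)
    obtain ⟨g, hg⟩ := hnon
    have hg1 := mem_filter.1 hg
    have hg2 := mem_filter.1 hg1.1
    have hSS : S ⊆ S₀ := by
      rcases P.strict S S₀ (by omega) with h | h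
      · exact h
      · exact absurd (h hg2.2) hg1.2
    rw [union_eq_right.2 hSS] at h1 h3
    rw [inter_eq_left.2 hSS] at h2 h4
    have htight : P.cnt B S = P.ρ S := by omega
    have hIc : P.cnt I S₀ = D'.card := by omega
    have hID : I.filter (fun e => P.s e ∈ S₀) = D' := by
      symm
      apply eq_of_subset_of_card_le
      · intro e he
        exact mem_filter.2 ⟨hsub he, (mem_filter.1 (mem_filter.1 he).1).2⟩
      · exact hIc.le
    set I' := I.filter (fun e => P.s e ∉ S₀) with hI'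
    have hC' : P.Cond S₀ I' := by
      refine ⟨fun e he => (mem_filter.1 he).2, fun S' hS' => ?_⟩
      have h5 := hC.2 S' (hSS.trans hS')
      have h6 := card_filter_add_card_filter_not (s := I.filter (fun e => P.s e ∈ S'))
        (fun e => P.s e ∈ S₀)
      have h7 : (I.filter (fun e => P.s e ∈ S')).filter (fun e => P.s e ∈ S₀)
          = I.filter (fun e => P.s e ∈ S₀) := by
        ext e
        simp only [mem_filter]
        exact ⟨fun h => ⟨h.1.1, h.2⟩, fun h => ⟨⟨h.1, hS' h.2⟩, h.2⟩⟩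
      have h8 : (I.filter (fun e => P.s e ∈ S')).filter (fun e => ¬ P.s e ∈ S₀)
          = I'.filter (fun e => P.s e ∈ S') := by
        ext e
        simp only [hI', mem_filter]
        tauto
      rw [h7, h8, hID] at h6
      unfold cnt at *
      omega
    have hsplit : ∑ e ∈ I, o e = ∑ e ∈ D', o e + ∑ e ∈ I', o e := by
      rw [← hID, hI', sum_filter_add_sum_filter_not]
    have hD'V : ∀ w : E → TT E, (∀ e, w e ∈ P.VS {P.s e}) → ∑ e ∈ D', w e ∈ P.VS S₀ := by
      intro w hw
      refine Submodule.sum_mem _ fun e he => ?_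
      exact P.VS_single_le (mem_filter.1 (mem_filter.1 he).1).2 (hw e)
    have hI'0 : ∑ e ∈ I', o e = 0 := by
      refine sum_eq_zero (hI S₀ I' hC' o ho ?_)
      have h5 := P.VS_mono hSS hsum
      rw [hsplit] at h5
      have h6 : ∑ e ∈ I', o e = (∑ e ∈ D', o e + ∑ e ∈ I', o e + l • ∑ e ∈ D', a e)
          - ∑ e ∈ D', o e - l • ∑ e ∈ D', a e := by abel
      rw [h6]
      exact Submodule.sub_mem _ (Submodule.sub_mem _ h5 (hD'V o (fun e => hOV e (ho e))))
        (Submodule.smul_mem _ _ (hD'V a haV))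
    rw [hsplit, hI'0, add_zero] at hsum
    have hgood : good S := by
      refine ⟨htight, fun e => o₀ e - (if e ∈ D' then l⁻¹ • o e else 0), fun e => ?_, ?_⟩
      · refine Submodule.sub_mem _ (ho₀ e) ?_
        split_ifs
        · exact Submodule.smul_mem _ _ (ho e)
        · exact Submodule.zero_mem _
      · have hD'B : D' ⊆ B := (filter_subset _ _).trans (filter_subset _ _)
        have h5 : ∑ e ∈ B, (if e ∈ D' then l⁻¹ • o e else 0) = l⁻¹ • ∑ e ∈ D', o e := by
          rw [← sum_filter, filter_mem_eq_inter, inter_eq_right.2 hD'B, smul_sum]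
        have h6 := sum_filter_add_sum_filter_not D (fun e => P.s e ∈ S) a
        rw [hav, ← hD'] at h6
        have h7 : v - ∑ e ∈ B, (o₀ e - (if e ∈ D' then l⁻¹ • o e else 0))
            = ∑ e ∈ D.filter (fun e => P.s e ∈ S), a e
              + l⁻¹ • (∑ e ∈ D', o e + l • ∑ e ∈ D', a e) := by
          rw [sum_sub_distrib, h5, smul_add, smul_smul, inv_mul_cancel₀ hl, one_smul]
          have h8 : ∑ e ∈ D.filter (fun e => P.s e ∈ S), a e
              = v - ∑ e ∈ B, o₀ e - ∑ e ∈ D', a e := by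
            rw [← h6]; abel
          rw [h8]; abel
        rw [h7]
        refine Submodule.add_mem _ (Submodule.sum_mem _ fun e he => ?_)
          (Submodule.smul_mem _ _ hsum)
        exact P.VS_single_le (mem_filter.1 he).2 (haV e)
    have hlt : S.card < S₀.card :=
      card_lt_card ⟨hSS, fun h => hg1.2 (h hg2.2)⟩
    have := hmin S hgood
    omega
  · have h1 : ∑ e ∈ B, (if e ∈ D then (1 : ℚ) else 0) • (a e + zz n D e)
        = ∑ e ∈ D, (a e + zz n D e) := by
      have h2 : ∀ e ∈ B, (if e ∈ D then (1 : ℚ) else 0) • (a e + zz n D e)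
          = if e ∈ D then (a e + zz n D e) else 0 := by
        intro e _
        split_ifs <;> simp
      rw [sum_congr rfl h2, ← sum_filter, filter_mem_eq_inter,
        inter_eq_right.2 (filter_subset _ _)]
    rw [sum_add_distrib, h1, sum_add_distrib, zz_sum, hav]
    abel

end Poly

end Pool.Agent.H374Z.Ing
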